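import Pool.Agent.Y212.HJ.Ex

/-!
# Translations of the affine Hjelmslev planes over commutative Hjelmslev rings

`IsHjelmslevRing R`: of any two elements of the commutative ring `R` one divides the other, every
nonunit is a zero divisor, and `R` is not a field.  `On R` is the incidence of the points of
`R × R` with the blocks `y = m x + b` and `x = n y + b` (`n` a nonunit); `par T` is the parallelism
of equal slopes, changed by the twist `T` on the blocks `y = m x + b` with a nonunit `m`.
-/

set_option autoImplicit false

open Pool.Agent.Results.MP_43980c_co.TranslationsNotGroup Pool.Agent.Y212.HJ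

universe u

/-- Over every commutative Hjelmslev ring the translations do not form a group, for every twist, in
particular for the usual parallelism; those translations which are dilatations form a sharply
transitive group for the usual parallelism, but not for some twist if there are at least three
nonunits. -/
theorem Pool.Agent.Results.MP_43980c_co.HjelmslevRings.result :
    (∀ (R : Type u) [CommRing R], IsHjelmslevRing R →
      (∀ T : Twist R, IsAffineHjelmslevPlane (On R) (par T) ∧ ProductFails T ∧ ¬ TranslGroup T) ∧
      (DilTranslGroup (slope R) ∧ SharplyTransitive (slope R)) ∧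
      (ThreeNonunits R → ∃ T : Twist R, DilProductFails T ∧ ¬ DilTranslGroup T)) ∧
    (∀ (K : Type u) [Field K], IsHjelmslevRing (DualNumber K) ∧
      ∀ c : K, c ≠ 0 → c ≠ 1 → ThreeNonunits (DualNumber K)) ∧
    (∀ p n : ℕ, p.Prime → 2 ≤ n → IsHjelmslevRing (ZMod (p ^ n)) ∧
      (4 < p ^ n → ThreeNonunits (ZMod (p ^ n)))) := by
  refine ⟨fun R _ h => ⟨fun T => ⟨plane h T, not_closed h T, ?_⟩, ?_, fun h3 => ?_⟩,
    fun K _ => ⟨dual K, fun c h0 h1 => dual_three K c h0 h1⟩,
    fun p n hp hn => ⟨zmod p n hp hn, fun h4 => zmod_three p n hp hn h4⟩⟩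
  · obtain ⟨σ, hσ, τ, hτ, h⟩ := not_closed h T
    exact no_subgroup hσ hτ h
  · obtain ⟨H, hH, hs⟩ := slope_group h
    refine ⟨⟨H, hH⟩, fun p q => ?_⟩
    rw [← hH]
    exact hs p q
  · obtain ⟨T, σ, hσ, τ, hτ, h⟩ := twisted h h3
    exact ⟨T, ⟨σ, hσ, τ, hτ, h⟩, no_subgroup hσ hτ fun hmem => h hmem.1⟩
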